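import Pool.Agent.Lib.MP_2d55ae_co.Main

set_option autoImplicit false

namespace Pool.Agent.Results.MP_2d55ae_co.BohrInPartitionCell

open scoped Pointwise

universe u

/-- The Bohr set of the characters `χ 0, …, χ (k - 1)` with radius `η`: all `g` such that
`|χ l g - 1| < η` for every `l`. Here `AddChar G Circle` is the type of homomorphisms from the
(discrete) group `G` to the unit circle of the complex numbers. -/
def bohrSet {G : Type u} [AddCommGroup G] {k : ℕ} (χ : Fin k → AddChar G Circle) (η : ℝ) :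
    Set G :=
  {g | ∀ l, ‖((χ l g : Circle) : ℂ) - 1‖ < η}

/-- Positive answer to the question. For `d ≥ 3` endomorphisms of an abelian group with finite
indices `m j`, some nonempty subfamily of which sums to zero, every partition into `r` cells has a
cell `A i` such that the sum of the images `φ j (A i)` contains a Bohr set whose rank `k` and
radius `η` depend only on `d`, `r` and the indices. -/
theorem result (d r : ℕ) (hd : 3 ≤ d) (_hr : 1 ≤ r) (m : Fin d → ℕ) (hm : ∀ j, 0 < m j) :
    ∃ (k : ℕ) (η : ℝ), 0 < η ∧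
      ∀ (G : Type u) [AddCommGroup G] (φ : Fin d → (G →+ G)),
        (∀ j, (φ j).range.index = m j) →
        (∃ S : Finset (Fin d), S.Nonempty ∧ ∑ j ∈ S, φ j = 0) →
        ∀ A : Fin r → Set G, Pairwise (fun i i' => Disjoint (A i) (A i')) →
          (⋃ i, A i) = Set.univ →
          ∃ (i : Fin r) (χ : Fin k → AddChar G Circle),
            bohrSet χ η ⊆ ∑ j, (φ j) '' (A i) := by
  classical
  obtain ⟨k, η, hη, hmain⟩ := Pool.Agent.Lib.MP_2d55ae_co.main_all.{u} d r hd m
  refine ⟨k, η, hη, ?_⟩
  intro G _ φ hφ hS A _ hcov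
  have hex : ∀ g : G, ∃ i, g ∈ A i := by
    intro g
    have : g ∈ ⋃ i, A i := by rw [hcov]; trivial
    exact Set.mem_iUnion.1 this
  choose c hc using hex
  obtain ⟨i, χ, hχ⟩ := hmain G φ (fun j => ⟨hφ j, (hm j).ne'⟩) hS c
  refine ⟨i, χ, ?_⟩
  intro z hz
  obtain ⟨a, ha, hsum⟩ := hχ z hz
  rw [Set.mem_fintype_sum]
  refine ⟨fun j => φ j (a j), fun j => ⟨a j, ?_, rfl⟩, hsum⟩
  have := hc (a j)
  rwa [ha j] at this

end Pool.Agent.Results.MP_2d55ae_co.BohrInPartitionCell
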